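import Pool.Agent.V11201.RP.Start
import Pool.Agent.V11201.RP.V38.T0
import Pool.Agent.V11201.RP.V38.T1
import Pool.Agent.V11201.RP.V38.T2
import Pool.Agent.V11201.RP.V38.T3
import Pool.Agent.V11201.RP.V38.T4
import Pool.Agent.V11201.RP.V38.T5
import Pool.Agent.V11201.RP.V38.T6
import Pool.Agent.V11201.RP.V38.T7
import Pool.Agent.V11201.RP.V38.T8
import Pool.Agent.V11201.RP.V38.T9
import Pool.Agent.V11201.RP.V38.T10

set_option autoImplicit false
set_option maxRecDepth 100000

namespace Pool.Agent.V11201.RP.V38

theorem st0 : St 38 s0 := by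
  apply st_base (by norm_num) (by decide +kernel)
  · decide +kernel
  · decide +kernel
  · decide +kernel

theorem st1 : St 38 s1 :=
  st0.chunk (by norm_num) (by norm_num) t0 (by decide +kernel)

theorem st2 : St 38 s2 :=
  st1.chunk (by norm_num) (by norm_num) t1 (by decide +kernel)

theorem st3 : St 38 s3 :=
  st2.chunk (by norm_num) (by norm_num) t2 (by decide +kernel)

theorem st4 : St 38 s4 :=
  st3.chunk (by norm_num) (by norm_num) t3 (by decide +kernel)

theorem st5 : St 38 s5 :=
  st4.chunk (by norm_num) (by norm_num) t4 (by decide +kernel)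

theorem st6 : St 38 s6 :=
  st5.chunk (by norm_num) (by norm_num) t5 (by decide +kernel)

theorem st7 : St 38 s7 :=
  st6.chunk (by norm_num) (by norm_num) t6 (by decide +kernel)

theorem st8 : St 38 s8 :=
  st7.chunk (by norm_num) (by norm_num) t7 (by decide +kernel)

theorem st9 : St 38 s9 :=
  st8.chunk (by norm_num) (by norm_num) t8 (by decide +kernel)

theorem st10 : St 38 s10 :=
  st9.chunk (by norm_num) (by norm_num) t9 (by decide +kernel)

theorem st11 : St 38 s11 :=
  st10.chunk (by norm_num) (by norm_num) t10 (by decide +kernel)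

theorem main : ∃ K : AbstractSimplicialComplex (Fin 38), Nonempty (real K ≃ₜ RP6) :=
  final_thm st11 (by decide +kernel) (by decide +kernel)

end Pool.Agent.V11201.RP.V38
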